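import Pool.Agent.R779.FJ.Col
import Pool.Agent.R941.FJ.Hyper

/-!
# Groups of units and ideals with local units

If a group acts by inner automorphisms of a ring on the units which are `1` modulo an ideal with local
units, then each of these automorphisms is realized on finitely many elements by an inner automorphism
of a group `GL₂` over a corner ring.
-/

set_option autoImplicit false

namespace Pool.Agent.U643.UI

open Pool.Agent.Y110.FJ
open Pool.Agent.Y462.SS (Closed)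
open Pool.Agent.R941.FJ (C_equiv C_le C_cyc mem_sup_normal)

section rot

variable {S : Type} [Ring S]

/-- a partial isomorphism between idempotents extends to an invertible matrix -/
def rot (u v : S) (h1 : u * v * u = u) (h2 : v * u * v = v) : (Matrix (Fin 2) (Fin 2) S)ˣ where
  val := !![u, 1 - u * v; 1 - v * u, v]
  inv := !![v, 1 - v * u; 1 - u * v, u]
  val_inv := by
    have h3 : u * v * (u * v) = u * v := by rw [← mul_assoc, h1]
    have h4 : v * u * (v * u) = v * u := by rw [← mul_assoc, h2]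
    ext i j
    fin_cases i <;> fin_cases j
    · simp only [Matrix.mul_apply, Fin.sum_univ_two]
      simp
      rw [mul_sub, sub_mul, sub_mul, h3]
      simp
    · simp only [Matrix.mul_apply, Fin.sum_univ_two]
      simp
      rw [mul_sub, sub_mul, ← mul_assoc, h1]
      simp
    · simp only [Matrix.mul_apply, Fin.sum_univ_two]
      simp
      rw [mul_sub, sub_mul, ← mul_assoc, h2]
      simp
    · simp only [Matrix.mul_apply, Fin.sum_univ_two]
      simp
      rw [mul_sub, sub_mul, sub_mul, h4]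
      simp
  inv_val := by
    have h3 : u * v * (u * v) = u * v := by rw [← mul_assoc, h1]
    have h4 : v * u * (v * u) = v * u := by rw [← mul_assoc, h2]
    ext i j
    fin_cases i <;> fin_cases j
    · simp only [Matrix.mul_apply, Fin.sum_univ_two]
      simp
      rw [mul_sub, sub_mul, sub_mul, h4]
      simp
    · simp only [Matrix.mul_apply, Fin.sum_univ_two]
      simp
      rw [mul_sub, sub_mul, ← mul_assoc, h2]
      simp
    · simp only [Matrix.mul_apply, Fin.sum_univ_two]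
      simp
      rw [mul_sub, sub_mul, ← mul_assoc, h1]
      simp
    · simp only [Matrix.mul_apply, Fin.sum_univ_two]
      simp
      rw [mul_sub, sub_mul, sub_mul, h3]
      simp

theorem rot_conj (u v : S) (h1 : u * v * u = u) (h2 : v * u * v = v) (y : S)
    (hy1 : v * u * y = y) (hy2 : y * (v * u) = y) :
    (!![1 + u * y * v, 0; 0, 1] : Matrix (Fin 2) (Fin 2) S) * (rot u v h1 h2).val =
      (rot u v h1 h2).val * !![1 + y, 0; 0, 1] := by
  have h5 : u * y * v * u = u * y := by rw [mul_assoc, mul_assoc, hy2]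
  have h6 : u * y * v * (u * v) = u * y * v := by rw [← mul_assoc, h5]
  ext i j
  fin_cases i <;> fin_cases j
  · simp only [Matrix.mul_apply, Fin.sum_univ_two, rot]
    simp
    rw [add_mul, h5, mul_add]
    simp
  · simp only [Matrix.mul_apply, Fin.sum_univ_two, rot]
    simp
    rw [add_mul, mul_sub, mul_sub, h6]
    simp
  · simp only [Matrix.mul_apply, Fin.sum_univ_two, rot]
    simp
    rw [mul_add, sub_mul, sub_mul, hy1]
    simp
  · simp only [Matrix.mul_apply, Fin.sum_univ_two, rot]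
    simp

end rot

section corner

variable {B : Type} [Ring B] {h : B} (hh : IsIdempotentElem h)

/-- the units which are the identity outside the corner of `h` -/
def Nh (h : B) : Subgroup Bˣ where
  carrier := {u | h * (u.1 - 1) = u.1 - 1 ∧ (u.1 - 1) * h = u.1 - 1}
  one_mem' := by simp
  mul_mem' := by
    rintro u v ⟨h1, h2⟩ ⟨h3, h4⟩
    constructor
    · have e : (u * v : Bˣ).1 - 1 = (u.1 - 1) * v.1 + (v.1 - 1) := by
        rw [Units.val_mul, sub_mul, one_mul]; abel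
      rw [e, mul_add, ← mul_assoc, h1, h3]
    · have e : (u * v : Bˣ).1 - 1 = u.1 * (v.1 - 1) + (u.1 - 1) := by
        rw [Units.val_mul, mul_sub, mul_one]; abel
      rw [e, add_mul, mul_assoc, h4, h2]
  inv_mem' := by
    rintro u ⟨h1, h2⟩
    constructor
    · have e : (u⁻¹ : Bˣ).1 - 1 = -((u.1 - 1) * (u⁻¹ : Bˣ).1) := by
        rw [sub_mul, Units.mul_inv, one_mul]; abel
      rw [e, mul_neg, ← mul_assoc, h1]
    · have e : (u⁻¹ : Bˣ).1 - 1 = -((u⁻¹ : Bˣ).1 * (u.1 - 1)) := by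
        rw [mul_sub, Units.inv_mul, mul_one]; abel
      rw [e, neg_mul, mul_assoc, h2]

theorem mem_Nh {u : Bˣ} : u ∈ Nh h ↔ h * (u.1 - 1) = u.1 - 1 ∧ (u.1 - 1) * h = u.1 - 1 := Iff.rfl

/-- an element of the corner ring -/
def ce (x : B) (h1 : h * x = x) (h2 : x * h = x) : hh.Corner :=
  ⟨x, (Subsemigroup.mem_corner_iff hh).2 ⟨h1, h2⟩⟩

theorem ce_val (x : B) (h1 : h * x = x) (h2 : x * h = x) : (ce hh x h1 h2).1 = x := rfl

theorem corner_one : (1 : hh.Corner).1 = h := rfl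

/-- units supported in the corner give matrices over the corner ring -/
def Dg : Nh h →* Matrix (Fin 2) (Fin 2) hh.Corner where
  toFun u := !![1 + ce hh (u.1.1 - 1) u.2.1 u.2.2, 0; 0, 1]
  map_one' := by
    have h1 : 1 + ce hh (((1 : Nh h).1.1 : B) - 1) (1 : Nh h).2.1 (1 : Nh h).2.2 = 1 := by
      rw [add_eq_left]
      apply Subtype.ext
      show ((1 : Nh h).1.1 : B) - 1 = 0
      rw [sub_eq_zero]
      rfl
    rw [h1]
    exact Matrix.one_fin_two.symm
  map_mul' u v := by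
    have h1 : 1 + ce hh (((u * v : Nh h).1.1 : B) - 1) (u * v : Nh h).2.1 (u * v : Nh h).2.2 =
        (1 + ce hh (u.1.1 - 1) u.2.1 u.2.2) * (1 + ce hh (v.1.1 - 1) v.2.1 v.2.2) := by
      rw [add_mul, one_mul, mul_add, mul_one, add_assoc]
      congr 1
      apply Subtype.ext
      show ((u * v : Nh h).1.1 : B) - 1 = (v.1.1 - 1) + ((u.1.1 - 1) + (u.1.1 - 1) * (v.1.1 - 1))
      rw [Subgroup.coe_mul, Units.val_mul]
      noncomm_ring
    ext i j
    fin_cases i <;> fin_cases j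
    · simp only [Matrix.mul_apply, Fin.sum_univ_two]
      simpa using h1
    · simp [Matrix.mul_apply, Fin.sum_univ_two]
    · simp [Matrix.mul_apply, Fin.sum_univ_two]
    · simp [Matrix.mul_apply, Fin.sum_univ_two]

/-- the homomorphism to the invertible matrices -/
def Du : Nh h →* (Matrix (Fin 2) (Fin 2) hh.Corner)ˣ := (Dg hh).toHomUnits

theorem Du_val (u : Nh h) : (Du hh u).val = !![1 + ce hh (u.1.1 - 1) u.2.1 u.2.2, 0; 0, 1] := rfl

theorem Du_inj : Function.Injective (Du hh) := by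
  intro u v huv
  have h1 : (Du hh u).val 0 0 = (Du hh v).val 0 0 := by rw [huv]
  rw [Du_val, Du_val] at h1
  have h2 : (1 + ce hh (u.1.1 - 1) u.2.1 u.2.2) = (1 + ce hh (v.1.1 - 1) v.2.1 v.2.2) := h1
  have h3 : ce hh (u.1.1 - 1) u.2.1 u.2.2 = ce hh (v.1.1 - 1) v.2.1 v.2.2 := add_left_cancel h2
  have h4 : (u.1.1 - 1 : B) = v.1.1 - 1 := congrArg Subtype.val h3
  have h5 : (u.1.1 : B) = v.1.1 := sub_left_injective h4
  exact Subtype.ext (Units.ext h5)

end corner

/-- the ideal (or subset) `I` has local units `e` such that the groups `GL₂` over the corner rings are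
in `C` -/
def LUnits (C : ∀ (G : Type) [Group G], Prop) {B : Type} [Ring B] (I : Set B) : Prop :=
  ∀ F : Set B, F.Finite → F ⊆ I → ∃ (e : B) (he : IsIdempotentElem e),
    e ∈ I ∧ (∀ x ∈ F, e * x = x ∧ x * e = x) ∧ C (Matrix (Fin 2) (Fin 2) he.Corner)ˣ

variable {C : ∀ (G : Type) [Group G], Prop}

theorem base (hC : ClosedE C) {B : Type} [Ring B] (I : Set B)
    (hI : LUnits C I) {G : Type} [Group G] (φ : G →* Bˣ)
    (hId : ∀ g : G, ∀ x ∈ I, (φ g).1 * x * (φ g)⁻¹.1 ∈ I) (N : Subgroup G) [hN : N.Normal]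
    (hQ : C (G ⧸ N)) (hinj : ∀ n ∈ N, φ n = 1 → n = 1) (hNI : ∀ n ∈ N, (φ n).1 - 1 ∈ I) : C G := by
  refine Pool.Agent.R779.FJ.t_crit Pool.Agent.Y529.FJ.t_ext
    (Pool.Agent.Y961.FJ.t_perm Pool.Agent.Y529.FJ.t_ext) C hC G N hQ fun g E hE hEN => ?_
  -- the idempotent for `E`
  obtain ⟨e, he, heI, hex, -⟩ := hI ((fun x => (φ x).1 - 1) '' E) (hE.image _) (by
    rintro _ ⟨x, hx, rfl⟩
    exact hNI x (hEN hx))
  obtain ⟨f, hf⟩ : ∃ f : B, f = (φ g).1 * e * (φ g)⁻¹.1 := ⟨_, rfl⟩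
  have hfI : f ∈ I := by
    rw [hf]
    exact hId _ _ heI
  obtain ⟨h, hh, hhI, hhx, hCh⟩ := hI {e, f} (by simp) (by
    rintro x (rfl | rfl)
    · exact heI
    · exact hfI)
  obtain ⟨h1, h2⟩ := hhx e (by simp)
  obtain ⟨h3, h4⟩ := hhx f (by simp)
  obtain ⟨K, hK⟩ : ∃ K : Subgroup G, K = Subgroup.closure (E ∪ (fun x => g * x * g⁻¹) '' E) :=
    ⟨_, rfl⟩
  have hKN : K ≤ N := by
    rw [hK, Subgroup.closure_le]
    rintro _ (hx | ⟨x, hx, rfl⟩)
    · exact hEN hx
    · exact hN.conj_mem x (hEN hx) g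
  have hg1 : (φ g)⁻¹.1 * (φ g).1 = 1 := Units.inv_mul _
  have hg2 : (φ g).1 * (φ g)⁻¹.1 = 1 := Units.mul_inv _
  have hcj : ∀ x, (φ (g * x * g⁻¹)).1 - 1 = (φ g).1 * ((φ x).1 - 1) * (φ g)⁻¹.1 := by
    intro x
    rw [map_mul, map_mul, map_inv, Units.val_mul, Units.val_mul, mul_sub, sub_mul, mul_one, hg2]
  have hfx : ∀ x ∈ E, f * ((φ (g * x * g⁻¹)).1 - 1) = (φ (g * x * g⁻¹)).1 - 1 ∧
      ((φ (g * x * g⁻¹)).1 - 1) * f = (φ (g * x * g⁻¹)).1 - 1 := by
    intro x hx
    obtain ⟨h5, h6⟩ := hex _ ⟨x, hx, rfl⟩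
    rw [hcj, hf]
    constructor
    · calc (φ g).1 * e * (φ g)⁻¹.1 * ((φ g).1 * ((φ x).1 - 1) * (φ g)⁻¹.1)
          = (φ g).1 * e * ((φ g)⁻¹.1 * (φ g).1) * ((φ x).1 - 1) * (φ g)⁻¹.1 := by
            simp only [mul_assoc]
        _ = (φ g).1 * (e * ((φ x).1 - 1)) * (φ g)⁻¹.1 := by
            rw [hg1, mul_one]; simp only [mul_assoc]
        _ = _ := by rw [h5]
    · calc (φ g).1 * ((φ x).1 - 1) * (φ g)⁻¹.1 * ((φ g).1 * e * (φ g)⁻¹.1)
          = (φ g).1 * ((φ x).1 - 1) * ((φ g)⁻¹.1 * (φ g).1) * e * (φ g)⁻¹.1 := by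
            simp only [mul_assoc]
        _ = (φ g).1 * (((φ x).1 - 1) * e) * (φ g)⁻¹.1 := by
            rw [hg1, mul_one]; simp only [mul_assoc]
        _ = _ := by rw [h6]
  have hKh : ∀ k ∈ K, φ k ∈ Nh h := by
    have h0 : K ≤ (Nh h).comap φ := by
      rw [hK, Subgroup.closure_le]
      rintro _ (hx | ⟨x, hx, rfl⟩)
      · obtain ⟨h5, h6⟩ := hex ((φ _).1 - 1) ⟨_, hx, rfl⟩
        refine ⟨?_, ?_⟩
        · rw [← h5, ← mul_assoc, h1]
        · rw [← h6, mul_assoc, h2]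
      · obtain ⟨h5, h6⟩ := hfx x hx
        refine ⟨?_, ?_⟩
        · show h * ((φ (g * x * g⁻¹)).1 - 1) = (φ (g * x * g⁻¹)).1 - 1
          rw [← h5, ← mul_assoc, h3]
        · show ((φ (g * x * g⁻¹)).1 - 1) * h = (φ (g * x * g⁻¹)).1 - 1
          rw [← h6, mul_assoc, h4]
    exact h0
  -- the partial isometry
  have hu1 : h * ((φ g).1 * e) = (φ g).1 * e := by
    have h5 : (φ g).1 * e = f * (φ g).1 := by
      rw [hf, mul_assoc ((φ g).1 * e), hg1, mul_one]
    rw [h5, ← mul_assoc, h3]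
  have hu2 : (φ g).1 * e * h = (φ g).1 * e := by rw [mul_assoc, h2]
  have hv1 : h * (e * (φ g)⁻¹.1) = e * (φ g)⁻¹.1 := by rw [← mul_assoc, h1]
  have hv2 : e * (φ g)⁻¹.1 * h = e * (φ g)⁻¹.1 := by
    have h5 : e * (φ g)⁻¹.1 = (φ g)⁻¹.1 * f := by
      rw [hf, ← mul_assoc, ← mul_assoc, hg1, one_mul]
    rw [h5, mul_assoc, h4]
  obtain ⟨u, hu⟩ : ∃ u, u = ce hh _ hu1 hu2 := ⟨_, rfl⟩
  obtain ⟨v, hv⟩ : ∃ v, v = ce hh _ hv1 hv2 := ⟨_, rfl⟩
  have hee : e * e = e := he
  have hvu : (v * u).1 = e := by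
    rw [hu, hv]
    show e * (φ g)⁻¹.1 * ((φ g).1 * e) = e
    rw [mul_assoc, ← mul_assoc (φ g)⁻¹.1, hg1, one_mul, hee]
  have huvu : u * v * u = u := by
    apply Subtype.ext
    rw [mul_assoc]
    show u.1 * (v * u).1 = u.1
    rw [hvu, hu]
    show (φ g).1 * e * e = (φ g).1 * e
    rw [mul_assoc, hee]
  have hvuv : v * u * v = v := by
    apply Subtype.ext
    show (v * u).1 * v.1 = v.1
    rw [hvu, hv]
    show e * (e * (φ g)⁻¹.1) = e * (φ g)⁻¹.1
    rw [← mul_assoc, hee]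
  unfold Realized
  rw [← hK]
  refine ⟨(Matrix (Fin 2) (Fin 2) hh.Corner)ˣ, inferInstance,
    (Du hh).comp ((φ.comp K.subtype).codRestrict (Nh h) fun k => hKh k k.2), rot u v huvu hvuv,
    hCh, ?_, ?_⟩
  · intro a b hab
    have h5 := Du_inj hh hab
    have h6 : φ a.1 = φ b.1 := congrArg Subtype.val h5
    have h7 : φ (a.1 * b.1⁻¹) = 1 := by rw [map_mul, map_inv, h6, mul_inv_cancel]
    have h8 := hinj _ (mul_mem (hKN a.2) (inv_mem (hKN b.2))) h7
    exact Subtype.ext (mul_inv_eq_one.1 h8)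
  · intro x y hx hy
    rw [eq_mul_inv_iff_mul_eq]
    apply Units.ext
    obtain ⟨h5, h6⟩ := hex _ ⟨_, hx, rfl⟩
    have hxK : h * ((φ x.1).1 - 1) = (φ x.1).1 - 1 ∧ ((φ x.1).1 - 1) * h = (φ x.1).1 - 1 :=
      hKh _ x.2
    have hyK : h * ((φ y.1).1 - 1) = (φ y.1).1 - 1 ∧ ((φ y.1).1 - 1) * h = (φ y.1).1 - 1 :=
      hKh _ y.2
    have h7 := rot_conj u v huvu hvuv (ce hh ((φ x.1).1 - 1) hxK.1 hxK.2)
      (by apply Subtype.ext
          show (v * u).1 * ((φ x.1).1 - 1) = (φ x.1).1 - 1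
          rw [hvu]
          exact h5)
      (by apply Subtype.ext
          show ((φ x.1).1 - 1) * (v * u).1 = (φ x.1).1 - 1
          rw [hvu]
          exact h6)
    have h8 : u * (ce hh ((φ x.1).1 - 1) hxK.1 hxK.2) * v = ce hh ((φ y.1).1 - 1) hyK.1 hyK.2 := by
      apply Subtype.ext
      rw [hu, hv]
      show (φ g).1 * e * ((φ x.1).1 - 1) * (e * (φ g)⁻¹.1) = (φ y.1).1 - 1
      have h9 : (y : G) = g * x * g⁻¹ := hy
      rw [h9, hcj, mul_assoc (φ g).1 e]
      have h10 : e * ((φ x.1).1 - 1) = (φ x.1).1 - 1 := h5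
      rw [h10, mul_assoc, ← mul_assoc ((φ x.1).1 - 1) e]
      have h11 : ((φ x.1).1 - 1) * e = (φ x.1).1 - 1 := h6
      rw [h11, ← mul_assoc]
    rw [h8] at h7
    exact h7

end Pool.Agent.U643.UI
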