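import Pool.Agent.U643.UI.Base

/-!
# Chains of ideals
-/

set_option autoImplicit false

namespace Pool.Agent.U643.UI

open Pool.Agent.Y110.FJ
open Pool.Agent.Y462.SS (Closed)
open Pool.Agent.R941.FJ (C_equiv C_le C_cyc mem_sup_normal)

variable {C : ∀ (G : Type) [Group G], Prop}

/-- `H = L ⟨g⟩` modulo `L` is cyclic -/
theorem cyc_quot (hC : Closed C) {G : Type} [Group G] (L : Subgroup G) [L.Normal] (g : G)
    (H : Subgroup G) (hH : H = L ⊔ Subgroup.zpowers g) : C (H ⧸ L.subgroupOf H) := by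
  have h1 : ∃ q : H ⧸ L.subgroupOf H, ∀ x : H ⧸ L.subgroupOf H, x ∈ Subgroup.zpowers q := by
    refine ⟨QuotientGroup.mk ⟨g, ?_⟩, ?_⟩
    · rw [hH]
      exact Subgroup.mem_sup_right (Subgroup.mem_zpowers _)
    · intro x
      obtain ⟨⟨y, hy⟩, rfl⟩ := QuotientGroup.mk_surjective x
      have hy' := hy
      rw [hH] at hy'
      obtain ⟨a, ha, b, hb, hab⟩ := mem_sup_normal.1 hy'
      obtain ⟨k, rfl⟩ := Subgroup.mem_zpowers_iff.1 hb
      rw [Subgroup.mem_zpowers_iff]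
      refine ⟨k, ?_⟩
      rw [← QuotientGroup.mk_zpow, eq_comm, ← mul_inv_eq_one, ← QuotientGroup.mk_inv,
        ← QuotientGroup.mk_mul, QuotientGroup.eq_one_iff, Subgroup.mem_subgroupOf]
      show y * (g ^ k)⁻¹ ∈ L
      rw [← hab, mul_inv_cancel_right]
      exact ha
  obtain ⟨q, hq⟩ := h1
  have h2 : Subgroup.zpowers q = ⊤ := (Subgroup.eq_top_iff' _).2 hq
  refine C_equiv hC Subgroup.topEquiv.symm ?_
  rw [← h2]
  exact C_cyc hC q

/-- factors which embed in the units which are `1` modulo an ideal with local units -/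
theorem factor_lu (hC : ClosedE C) {B : Type} [Ring B] (I : Set B)
    (hId : ∀ a x b : B, x ∈ I → a * x * b ∈ I) (hI : LUnits C I)
    {G : Type} [Group G] (M M' : Subgroup G) [M.Normal] [M'.Normal] (ψ : G →* Bˣ)
    (hM : ∀ x ∈ M, ψ x = 1) (hM' : ∀ x ∈ M', ψ x = 1 → x ∈ M) (hMI : ∀ x ∈ M', (ψ x).1 - 1 ∈ I)
    (g : G) : C ↥((M' ⊔ Subgroup.zpowers g).map (QuotientGroup.mk' M)) := by
  obtain ⟨H, hH⟩ : ∃ H : Subgroup (G ⧸ M), H = (M' ⊔ Subgroup.zpowers g).map (QuotientGroup.mk' M) :=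
    ⟨_, rfl⟩
  obtain ⟨L, hL⟩ : ∃ L : Subgroup (G ⧸ M), L = M'.map (QuotientGroup.mk' M) := ⟨_, rfl⟩
  have hLn : L.Normal := by
    rw [hL]
    exact Subgroup.Normal.map inferInstance _ (QuotientGroup.mk'_surjective M)
  have hH' : H = L ⊔ Subgroup.zpowers (QuotientGroup.mk' M g) := by
    rw [hH, hL, Subgroup.map_sup, MonoidHom.map_zpowers]
  rw [← hH]
  refine base hC I hI ((QuotientGroup.lift M ψ hM).comp H.subtype) (fun _ _ h => hId _ _ _ h)
    (L.subgroupOf H) (cyc_quot hC.base L _ H hH') ?_ ?_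
  · rintro ⟨n, hn⟩ hnL h1
    rw [Subgroup.mem_subgroupOf, hL] at hnL
    obtain ⟨x, hx, hxn⟩ := hnL
    have hxn' : QuotientGroup.mk' M x = n := hxn
    subst hxn'
    have h2 : ψ x = 1 := h1
    apply Subtype.ext
    exact (QuotientGroup.eq_one_iff x).2 (hM' x hx h2)
  · rintro ⟨n, hn⟩ hnL
    rw [Subgroup.mem_subgroupOf, hL] at hnL
    obtain ⟨x, hx, hxn⟩ := hnL
    have hxn' : QuotientGroup.mk' M x = n := hxn
    subst hxn'
    exact hMI x hx

section ideals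

variable {A : Type} [Ring A]

/-- One step of a chain of ideals `J ≤ J'`: the ideal `J' / J` of `A / J` has local units with corner
rings such that the groups `GL₂` over them are in `C`, or has square zero, or is locally finite. -/
def Step (C : ∀ (G : Type) [Group G], Prop) (J J' : TwoSidedIdeal A) : Prop :=
  LUnits C (J.ringCon.mk' '' (J' : Set A)) ∨
  (∀ x ∈ J', ∀ y ∈ J', x * y ∈ J) ∨
  (∀ F : Set A, F.Finite → F ⊆ J' → ∃ R : NonUnitalSubring A, F ⊆ R ∧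
    (J.ringCon.mk' '' (R : Set A)).Finite)

/-- the units which are `1` modulo `J` -/
def UJ (J : TwoSidedIdeal A) : Subgroup Aˣ where
  carrier := {u | u.1 - 1 ∈ J}
  one_mem' := by
    show (1 : A) - 1 ∈ J
    rw [sub_self]
    exact J.zero_mem
  mul_mem' := by
    intro u v (h1 : u.1 - 1 ∈ J) (h2 : v.1 - 1 ∈ J)
    have e : (u * v : Aˣ).1 - 1 = (u.1 - 1) * v.1 + (v.1 - 1) := by
      rw [Units.val_mul, sub_mul, one_mul]; abel
    show (u * v : Aˣ).1 - 1 ∈ J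
    rw [e]
    exact J.add_mem (J.mul_mem_right _ _ h1) h2
  inv_mem' := by
    intro u (h1 : u.1 - 1 ∈ J)
    have e : (u⁻¹ : Aˣ).1 - 1 = -((u.1 - 1) * (u⁻¹ : Aˣ).1) := by
      rw [sub_mul, Units.mul_inv, one_mul]; abel
    show (u⁻¹ : Aˣ).1 - 1 ∈ J
    rw [e]
    exact J.neg_mem (J.mul_mem_right _ _ h1)

theorem mem_UJ {J : TwoSidedIdeal A} {u : Aˣ} : u ∈ UJ J ↔ u.1 - 1 ∈ J := Iff.rfl

instance (J : TwoSidedIdeal A) : (UJ J).Normal := by
  refine ⟨fun u hu v => ?_⟩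
  have e : (v * u * v⁻¹ : Aˣ).1 - 1 = v.1 * (u.1 - 1) * (v⁻¹ : Aˣ).1 := by
    rw [Units.val_mul, Units.val_mul, mul_sub, sub_mul, mul_one, Units.mul_inv]
  show (v * u * v⁻¹ : Aˣ).1 - 1 ∈ J
  rw [e]
  exact J.mul_mem_right _ _ (J.mul_mem_left _ _ hu)

theorem UJ_mono {J J' : TwoSidedIdeal A} (h : J ≤ J') : UJ J ≤ UJ J' :=
  fun _ hu => h hu

/-- the union of a directed set of ideals -/
def un (c : Set (TwoSidedIdeal A)) (J₀ : TwoSidedIdeal A) (h0 : J₀ ∈ c)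
    (hc : DirectedOn (· ≤ ·) c) : TwoSidedIdeal A :=
  TwoSidedIdeal.mk' {x | ∃ J ∈ c, x ∈ J} ⟨J₀, h0, J₀.zero_mem⟩
    (by
      rintro x y ⟨J, hJ, hx⟩ ⟨J', hJ', hy⟩
      obtain ⟨K, hK, h1, h2⟩ := hc J hJ J' hJ'
      exact ⟨K, hK, K.add_mem (h1 hx) (h2 hy)⟩)
    (by
      rintro x ⟨J, hJ, hx⟩
      exact ⟨J, hJ, J.neg_mem hx⟩)
    (by
      rintro x y ⟨J, hJ, hx⟩
      exact ⟨J, hJ, J.mul_mem_left _ _ hx⟩)
    (by
      rintro x y ⟨J, hJ, hx⟩
      exact ⟨J, hJ, J.mul_mem_right _ _ hx⟩)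

theorem mem_un {c : Set (TwoSidedIdeal A)} {J₀ : TwoSidedIdeal A} {h0 : J₀ ∈ c}
    {hc : DirectedOn (· ≤ ·) c} {x : A} : x ∈ un c J₀ h0 hc ↔ ∃ J ∈ c, x ∈ J := by
  rw [un, TwoSidedIdeal.mem_mk']
  rfl

theorem mk_eq {J : TwoSidedIdeal A} {x y : A} : J.ringCon.mk' x = J.ringCon.mk' y ↔ x - y ∈ J := by
  rw [← TwoSidedIdeal.rel_iff]
  exact RingCon.eq J.ringCon

theorem mk_surj (J : TwoSidedIdeal A) : Function.Surjective J.ringCon.mk' :=
  Quotient.mk''_surjective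

/-- the factors of one step -/
theorem factor (hC : ClosedE C)
    (hmet : ∀ (S : Type) [Group S], (∀ a ∈ commutator S, ∀ b ∈ commutator S, a * b = b * a) → C S)
    {G : Type} [Group G] (φ : G →* Aˣ) (N : Subgroup G) [N.Normal]
    {J J' : TwoSidedIdeal A} (hS : Step C J J') (g : G) :
    C ↥(((N ⊓ (UJ J').comap φ) ⊔ Subgroup.zpowers g).map
      (QuotientGroup.mk' (N ⊓ (UJ J).comap φ))) := by
  rcases hS with hS | hS | hS
  · refine factor_lu hC (J.ringCon.mk' '' (J' : Set A)) ?_ hS _ _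
      ((Units.map (J.ringCon.mk' : A →* J.ringCon.Quotient)).comp φ) ?_ ?_ ?_ g
    · rintro a _ b ⟨x, hx, rfl⟩
      obtain ⟨a, rfl⟩ := mk_surj J a
      obtain ⟨b, rfl⟩ := mk_surj J b
      exact ⟨a * x * b, J'.mul_mem_right _ _ (J'.mul_mem_left _ _ hx), by rw [map_mul, map_mul]⟩
    · rintro x ⟨-, hx⟩
      apply Units.ext
      show J.ringCon.mk' (φ x).1 = J.ringCon.mk' 1
      exact mk_eq.2 hx
    · rintro x ⟨hx, -⟩ h1
      refine ⟨hx, ?_⟩
      have h2 : J.ringCon.mk' (φ x).1 = J.ringCon.mk' 1 := congrArg Units.val h1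
      exact mk_eq.1 h2
    · rintro x ⟨-, hx⟩
      refine ⟨(φ x).1 - 1, hx, ?_⟩
      rw [map_sub, map_one]
      rfl
  · refine Pool.Agent.R941.FJ.factor_ab hC hmet _ _ ?_ g
    rintro a ⟨ha, ha'⟩ b ⟨hb, hb'⟩
    refine ⟨?_, ?_⟩
    · exact N.mul_mem (N.mul_mem (N.mul_mem ha hb) (N.inv_mem ha)) (N.inv_mem hb)
    · show (φ (a * b * a⁻¹ * b⁻¹)).1 - 1 ∈ J
      have h1 : (φ a).1 - 1 ∈ J' := ha'
      have h2 : (φ b).1 - 1 ∈ J' := hb'
      have h3 : (φ (a * b * a⁻¹ * b⁻¹)).1 - 1 =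
          (((φ a).1 - 1) * ((φ b).1 - 1) - ((φ b).1 - 1) * ((φ a).1 - 1)) *
            ((φ a)⁻¹.1 * (φ b)⁻¹.1) := by
        have e1 : ((φ a).1 - 1) * ((φ b).1 - 1) - ((φ b).1 - 1) * ((φ a).1 - 1) =
          (φ a).1 * (φ b).1 - (φ b).1 * (φ a).1 := by noncomm_ring
        rw [e1, map_mul, map_mul, map_mul, map_inv, map_inv, Units.val_mul, Units.val_mul,
          Units.val_mul, sub_mul]
        have e2 : (φ b).1 * (φ a).1 * ((φ a)⁻¹.1 * (φ b)⁻¹.1) = 1 := by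
          rw [mul_assoc, ← mul_assoc (φ a).1, Units.mul_inv, one_mul, Units.mul_inv]
        rw [e2]
        simp only [mul_assoc]
      rw [h3]
      exact J.mul_mem_right _ _ (J.sub_mem (hS _ h1 _ h2) (hS _ h2 _ h1))
  · refine Pool.Agent.R941.FJ.factor_lf hC _ _ ?_ g
    intro E hE hEM
    obtain ⟨R, hFR, hR⟩ := hS ((fun x => (φ x).1 - 1) '' E ∪ (fun x => (φ x)⁻¹.1 - 1) '' E)
      ((hE.image _).union (hE.image _)) (by
        rintro _ (⟨x, hx, rfl⟩ | ⟨x, hx, rfl⟩)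
        · exact (hEM hx).2
        · exact (UJ J').inv_mem (hEM hx).2)
    obtain ⟨M, hM⟩ : ∃ M, M = N ⊓ (UJ J).comap φ := ⟨_, rfl⟩
    rw [← hM]
    have hcl : ∀ x ∈ Subgroup.closure E, x ∈ N ∧ (φ x).1 - 1 ∈ R := by
      have hmul : ∀ u v : A, u - 1 ∈ R → v - 1 ∈ R → u * v - 1 ∈ R := by
        intro u v hu hv
        have e : u * v - 1 = (u - 1) * (v - 1) + (u - 1) + (v - 1) := by noncomm_ring
        rw [e]
        exact R.add_mem (R.add_mem (R.mul_mem hu hv) hu) hv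
      have h1 : ∀ x ∈ Subgroup.closure E, x ∈ N ∧ (φ x).1 - 1 ∈ R ∧ (φ x)⁻¹.1 - 1 ∈ R := by
        intro x hx
        induction hx using Subgroup.closure_induction with
        | mem x hx =>
          exact ⟨(hEM hx).1, hFR (Or.inl ⟨x, hx, rfl⟩), hFR (Or.inr ⟨x, hx, rfl⟩)⟩
        | one =>
          refine ⟨one_mem _, ?_, ?_⟩
          · rw [map_one, Units.val_one, sub_self]
            exact R.zero_mem
          · rw [map_one, inv_one, Units.val_one, sub_self]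
            exact R.zero_mem
        | mul x y _ _ hx hy =>
          refine ⟨mul_mem hx.1 hy.1, ?_, ?_⟩
          · rw [map_mul, Units.val_mul]
            exact hmul _ _ hx.2.1 hy.2.1
          · rw [map_mul, mul_inv_rev, Units.val_mul]
            exact hmul _ _ hy.2.2 hx.2.2
        | inv x _ hx =>
          refine ⟨inv_mem hx.1, ?_, ?_⟩
          · rw [map_inv]
            exact hx.2.2
          · rw [map_inv, inv_inv]
            exact hx.2.1
      exact fun x hx => ⟨(h1 x hx).1, (h1 x hx).2.1⟩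
    -- finitely many cosets
    have hfin : Finite (Subgroup.closure E ⧸ M.subgroupOf (Subgroup.closure E)) := by
      have h1 : Finite (J.ringCon.mk' '' (R : Set A)) := hR
      let f : Subgroup.closure E → J.ringCon.mk' '' (R : Set A) :=
        fun x => ⟨J.ringCon.mk' ((φ x).1 - 1), _, (hcl x x.2).2, rfl⟩
      have hf : ∀ x y, f x = f y → (QuotientGroup.mk x : Subgroup.closure E ⧸
          M.subgroupOf (Subgroup.closure E)) = QuotientGroup.mk y := by
        intro x y hxy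
        have h2 : J.ringCon.mk' ((φ x).1 - 1) = J.ringCon.mk' ((φ y).1 - 1) :=
          congrArg Subtype.val hxy
        rw [mk_eq] at h2
        have h3 : (φ y).1 - (φ x).1 ∈ J := by
          have := J.neg_mem h2
          have e : -((φ x).1 - 1 - ((φ y).1 - 1)) = (φ y).1 - (φ x).1 := by abel
          rwa [e] at this
        rw [QuotientGroup.eq, Subgroup.mem_subgroupOf, hM]
        refine ⟨N.mul_mem (N.inv_mem (hcl x x.2).1) (hcl y y.2).1, ?_⟩
        show (φ ((x : G)⁻¹ * (y : G))).1 - 1 ∈ J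
        have e : (φ ((x : G)⁻¹ * (y : G))).1 - 1 = (φ x)⁻¹.1 * ((φ y).1 - (φ x).1) := by
          rw [map_mul, map_inv, Units.val_mul, mul_sub, Units.inv_mul]
        rw [e]
        exact J.mul_mem_left _ _ h3
      refine Finite.of_surjective (fun y : Set.range f => (QuotientGroup.mk y.2.choose :
        Subgroup.closure E ⧸ M.subgroupOf (Subgroup.closure E))) ?_
      intro q
      obtain ⟨x, rfl⟩ := QuotientGroup.mk_surjective q
      refine ⟨⟨f x, x, rfl⟩, ?_⟩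
      exact hf _ _ (Exists.choose_spec (⟨x, rfl⟩ : f x ∈ Set.range f))
    exact (Subgroup.index_ne_zero_of_finite : (M.subgroupOf (Subgroup.closure E)).index ≠ 0)

/-- **chains of ideals** -/
theorem chain (hC : ClosedE C)
    (hmet : ∀ (S : Type) [Group S], (∀ a ∈ commutator S, ∀ b ∈ commutator S, a * b = b * a) → C S)
    (I : TwoSidedIdeal A) (hI : ∀ J, J < I → ∃ J', J < J' ∧ J' ≤ I ∧ Step C J J')
    {G : Type} [Group G] (φ : G →* Aˣ) (N : Subgroup G) [N.Normal] (hQ : C (G ⧸ N))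
    (hinj : ∀ n ∈ N, φ n = 1 → n = 1) (hNI : ∀ n ∈ N, (φ n).1 - 1 ∈ I) : C G := by
  obtain ⟨S, hS⟩ : ∃ S : Set (TwoSidedIdeal A), S = {J | J ≤ I ∧
    ∀ g : G, C ↥((N ⊓ (UJ J).comap φ) ⊔ Subgroup.zpowers g)} := ⟨_, rfl⟩
  have hbot : (⊥ : TwoSidedIdeal A) ∈ S := by
    rw [hS]
    refine ⟨bot_le, fun g => ?_⟩
    have h1 : N ⊓ (UJ (⊥ : TwoSidedIdeal A)).comap φ = ⊥ := by
      rw [eq_bot_iff]
      rintro x ⟨hx, hx'⟩
      rw [Subgroup.mem_bot]
      refine hinj x hx ?_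
      have h2 : (φ x).1 - 1 ∈ (⊥ : TwoSidedIdeal A) := hx'
      rw [TwoSidedIdeal.mem_bot, sub_eq_zero] at h2
      exact Units.ext h2
    rw [h1, bot_sup_eq]
    exact C_cyc hC.base g
  obtain ⟨J, -, hJ⟩ := zorn_le_nonempty₀ S (fun c hc hch y hy => by
    have hne : Nonempty c := ⟨⟨y, hy⟩⟩
    have hdir : DirectedOn (· ≤ ·) c := hch.directedOn
    refine ⟨un c y hy hdir, ?_, fun z hz x hx => mem_un.2 ⟨z, hz, hx⟩⟩
    rw [hS]
    refine ⟨fun x hx => ?_, fun g => ?_⟩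
    · obtain ⟨K, hK, hx⟩ := mem_un.1 hx
      have h1 := hc hK
      rw [hS] at h1
      exact h1.1 hx
    · refine Pool.Agent.Y430.SS.of_directed hC.base _ c (fun i j => ?_)
        (fun K => ((N ⊓ (UJ K.1).comap φ) ⊔ Subgroup.zpowers g).subgroupOf _) ?_ ?_ ?_
      · obtain ⟨k, hk, h1, h2⟩ := hdir i.1 i.2 j.1 j.2
        exact ⟨⟨k, hk⟩, h1, h2⟩
      · intro i j hij
        exact Subgroup.comap_mono (sup_le_sup_right
          (inf_le_inf_left _ (Subgroup.comap_mono (UJ_mono hij))) _)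
      · rintro ⟨x, hx⟩
        obtain ⟨a, ha, b, hb, hab⟩ := mem_sup_normal.1 hx
        obtain ⟨K, hK, haK⟩ := (mem_un (h0 := hy) (hc := hdir) (x := (φ a).1 - 1)).1 ha.2
        refine ⟨⟨K, hK⟩, ?_⟩
        rw [Subgroup.mem_subgroupOf]
        show x ∈ (N ⊓ (UJ K).comap φ) ⊔ Subgroup.zpowers g
        rw [← hab]
        exact mul_mem (Subgroup.mem_sup_left ⟨ha.1, haK⟩) (Subgroup.mem_sup_right hb)
      · intro i
        have h1 := hc i.2
        rw [hS] at h1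
        refine C_equiv hC.base (Subgroup.subgroupOfEquivOfLe (sup_le_sup_right
          (inf_le_inf_left _ (Subgroup.comap_mono (UJ_mono ?_))) _)) (h1.2 g)
        exact fun x hx => mem_un.2 ⟨i.1, i.2, hx⟩) ⊥ hbot
  have hJS : J ∈ S := hJ.prop
  rw [hS] at hJS
  obtain ⟨hJI, hJC⟩ := hJS
  have heq : J = I := by
    by_contra hne
    obtain ⟨J', hlt, hle, hst⟩ := hI J (lt_of_le_of_ne hJI hne)
    have h1 : J' ∈ S := by
      rw [hS]
      refine ⟨hle, fun g => ?_⟩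
      exact Pool.Agent.R941.FJ.step hC hJC
        (inf_le_inf_left _ (Subgroup.comap_mono (UJ_mono hlt.le)))
        (fun g => factor hC hmet φ N hst g) g
    exact absurd (hJ.le_of_ge h1 hlt.le) (not_le_of_gt hlt)
  subst heq
  have hN : N ⊓ (UJ J).comap φ = N := inf_eq_left.2 hNI
  rw [hN] at hJC
  refine Pool.Agent.Y529.FJ.t_ext C hC G N ?_ hQ fun g _ => hJC g
  exact C_le hC.base le_sup_left (hJC 1)

end ideals

end Pool.Agent.U643.UI
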