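import Pool.Agent.U643.UI.Reg

/-!
# Finitary linear groups
-/

set_option autoImplicit false

namespace Pool.Agent.U643.UI

open Pool.Agent.Y110.FJ
open Pool.Agent.Y462.SS (Closed)
open Pool.Agent.R941.FJ (C_equiv C_le)

variable {C : ∀ (G : Type) [Group G], Prop}

section free

variable {R M : Type} [Ring R] [AddCommGroup M] [Module R M]

/-- the corner ring of a projection onto a free module -/
def cth {h : Module.End R M} (hh : IsIdempotentElem h) (n : ℕ) (i : (Fin n → R) →ₗ[R] M)
    (p : M →ₗ[R] (Fin n → R)) (hip : i ∘ₗ p = h) :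
    hh.Corner →ₙ+* Module.End R (Fin n → R) where
  toFun x := p ∘ₗ x.1 ∘ₗ i
  map_mul' x y := by
    have key : ∀ X Y : Module.End R M, X * h = X →
        p ∘ₗ (X * Y) ∘ₗ i = (p ∘ₗ X ∘ₗ i) ∘ₗ (p ∘ₗ Y ∘ₗ i) := by
      intro X Y hX
      conv_lhs => rw [← hX, ← hip]
      rfl
    exact key _ _ ((Subsemigroup.mem_corner_iff hh).1 x.2).2
  map_zero' := by
    show p ∘ₗ (0 : Module.End R M) ∘ₗ i = 0
    rw [LinearMap.zero_comp, LinearMap.comp_zero]
  map_add' x y := by
    show p ∘ₗ (x.1 + y.1) ∘ₗ i = p ∘ₗ x.1 ∘ₗ i + p ∘ₗ y.1 ∘ₗ i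
    rw [LinearMap.add_comp, LinearMap.comp_add]

theorem cth_inj {h : Module.End R M} (hh : IsIdempotentElem h) (n : ℕ) (i : (Fin n → R) →ₗ[R] M)
    (p : M →ₗ[R] (Fin n → R)) (hip : i ∘ₗ p = h) : Function.Injective (cth hh n i p hip) := by
  intro x y hxy
  have h1 : p ∘ₗ x.1 ∘ₗ i = p ∘ₗ y.1 ∘ₗ i := hxy
  have h2 : ∀ z : hh.Corner, z.1 = i ∘ₗ (p ∘ₗ z.1 ∘ₗ i) ∘ₗ p := by
    intro z
    have key : ∀ X : Module.End R M, h * X = X → X * h = X →
        X = i ∘ₗ (p ∘ₗ X ∘ₗ i) ∘ₗ p := by
      intro X h3 h4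
      conv_lhs => rw [← h3, ← h4, ← hip]
      rfl
    exact key _ ((Subsemigroup.mem_corner_iff hh).1 z.2).1
      ((Subsemigroup.mem_corner_iff hh).1 z.2).2
  apply Subtype.ext
  rw [h2 x, h2 y, h1]

/-- the groups `GL₂` over the corner rings -/
theorem C_free (hC : Closed C) (hGL : ∀ n : ℕ, C (Module.End R (Fin n → R))ˣ)
    {h : Module.End R M} (hh : IsIdempotentElem h) (n : ℕ) (i : (Fin n → R) →ₗ[R] M)
    (p : M →ₗ[R] (Fin n → R)) (hip : i ∘ₗ p = h) : C (Matrix (Fin 2) (Fin 2) hh.Corner)ˣ := by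
  have e : ∀ m : ℕ, Module.End R (Fin m → R) ≃+* Matrix (Fin m) (Fin m) (Module.End R R) :=
    fun m => endVecRingEquivMatrixEnd (Fin m) R R
  refine C_gl2 hC (S := Module.End R R) n
    (((e n : Module.End R (Fin n → R) →ₙ+* Matrix (Fin n) (Fin n) (Module.End R R))).comp
      (cth hh n i p hip)) ?_ ?_
  · exact (e n).injective.comp (cth_inj hh n i p hip)
  · exact C_equiv hC (Units.mapEquiv (e (2 * n)).toMulEquiv).symm (hGL _)

end free

section vs

variable {D V : Type} [DivisionRing D] [AddCommGroup V] [Module D V]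

/-- the endomorphisms of finite rank -/
def fr (D V : Type) [DivisionRing D] [AddCommGroup V] [Module D V] :
    TwoSidedIdeal (Module.End D V) :=
  TwoSidedIdeal.mk' {x | FiniteDimensional D (LinearMap.range x)}
    (by
      show FiniteDimensional D (LinearMap.range (0 : Module.End D V))
      rw [LinearMap.range_zero]
      infer_instance)
    (by
      intro x y (hx : FiniteDimensional D (LinearMap.range x))
        (hy : FiniteDimensional D (LinearMap.range y))
      refine Submodule.finiteDimensional_of_le (S₂ := LinearMap.range x ⊔ LinearMap.range y) ?_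
      rintro _ ⟨v, rfl⟩
      exact Submodule.add_mem_sup ⟨v, rfl⟩ ⟨v, rfl⟩)
    (by
      intro x (hx : FiniteDimensional D (LinearMap.range x))
      show FiniteDimensional D (LinearMap.range (-x))
      rwa [LinearMap.range_neg])
    (by
      intro x y (hy : FiniteDimensional D (LinearMap.range y))
      show FiniteDimensional D (LinearMap.range (x ∘ₗ y))
      rw [LinearMap.range_comp]
      infer_instance)
    (by
      intro x y (hx : FiniteDimensional D (LinearMap.range x))
      refine Submodule.finiteDimensional_of_le (S₂ := LinearMap.range x) ?_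
      exact LinearMap.range_comp_le_range y x)

theorem mem_fr {x : Module.End D V} : x ∈ fr D V ↔ FiniteDimensional D (LinearMap.range x) := by
  rw [fr, TwoSidedIdeal.mem_mk']
  rfl

/-- the endomorphism ring of a vector space is regular -/
theorem end_regular (a : Module.End D V) : ∃ b, a * b * a = a := by
  obtain ⟨s, hs⟩ := (LinearMap.rangeRestrict a).exists_rightInverse_of_surjective
    (LinearMap.range_rangeRestrict a)
  obtain ⟨q, hq⟩ := (LinearMap.range a).subtype.exists_leftInverse_of_injective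
    (LinearMap.range a).ker_subtype
  refine ⟨s ∘ₗ q, ?_⟩
  ext v
  show a (s (q (a v))) = a v
  have h1 : q (a v) = ⟨a v, v, rfl⟩ := LinearMap.congr_fun hq ⟨a v, v, rfl⟩
  rw [h1]
  exact congrArg Subtype.val (LinearMap.congr_fun hs ⟨a v, v, rfl⟩)

/-- **kernels which consist of finitary linear transformations of a vector space** -/
theorem finitary (hC : ClosedE C) (hGL : ∀ n : ℕ, C (Module.End D (Fin n → D))ˣ)
    {G : Type} [Group G] (φ : G →* (Module.End D V)ˣ) (N : Subgroup G) [N.Normal]
    (hQ : C (G ⧸ N)) (hinj : ∀ n ∈ N, φ n = 1 → n = 1)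
    (hNI : ∀ n ∈ N, FiniteDimensional D (LinearMap.range ((φ n).1 - 1))) : C G := by
  refine base hC (fr D V : Set (Module.End D V)) ?_ φ
    (fun g x hx => (fr D V).mul_mem_right _ _ ((fr D V).mul_mem_left _ _ hx)) N hQ hinj
    (fun n hn => mem_fr.2 (hNI n hn))
  intro F hF hFI
  obtain ⟨h, hI, hh, hx⟩ := lu end_regular (fr D V) F hF hFI
  refine ⟨h, hh, hI, hx, ?_⟩
  have hfd : FiniteDimensional D (LinearMap.range h) := mem_fr.1 hI
  let b := Module.finBasis D (LinearMap.range h)
  refine C_free hC.base hGL hh _ ((LinearMap.range h).subtype ∘ₗ b.equivFun.symm.toLinearMap)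
    (b.equivFun.toLinearMap ∘ₗ LinearMap.rangeRestrict h) ?_
  ext v
  simp

end vs

section fm

variable {R X : Type} [Ring R]

/-- the endomorphisms of the free module with finitely many nonzero matrix entries -/
def FM (R X : Type) [Ring R] : Set (Module.End R (X →₀ R)) :=
  {x | ∃ Y : Finset X, (∀ y ∉ Y, x (Finsupp.single y 1) = 0) ∧ ∀ m, (x m).support ⊆ Y}

/-- **kernels which consist of finitary matrices over a ring** -/
theorem matrices (hC : ClosedE C) (hGL : ∀ n : ℕ, C (Module.End R (Fin n → R))ˣ)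
    {G : Type} [Group G] (φ : G →* (Module.End R (X →₀ R))ˣ)
    (hrow : ∀ (g : G) (x : X), {y | (φ g).1 (Finsupp.single y 1) x ≠ 0}.Finite)
    (N : Subgroup G) [N.Normal] (hQ : C (G ⧸ N)) (hinj : ∀ n ∈ N, φ n = 1 → n = 1)
    (hNI : ∀ n ∈ N, (φ n).1 - 1 ∈ FM R X) : C G := by
  classical
  refine base hC (FM R X) ?_ φ ?_ N hQ hinj hNI
  · -- local units
    intro F hF hFI
    obtain ⟨Y, hY⟩ : ∃ Y : Finset X, ∀ x ∈ F, (∀ y ∉ Y, x (Finsupp.single y 1) = 0) ∧
        ∀ m, (x m).support ⊆ Y := by
      induction F, hF using Set.Finite.induction_on with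
      | empty => exact ⟨∅, by simp⟩
      | @insert x F _ _ ih =>
        obtain ⟨Y, hY⟩ := ih fun y hy => hFI (Set.mem_insert_of_mem _ hy)
        obtain ⟨Z, hZ1, hZ2⟩ := hFI (Set.mem_insert x F)
        refine ⟨Y ∪ Z, ?_⟩
        rintro y (rfl | hy)
        · exact ⟨fun z hz => hZ1 z fun h => hz (Finset.mem_union_right _ h),
            fun m => (hZ2 m).trans Finset.subset_union_right⟩
        · exact ⟨fun z hz => (hY y hy).1 z fun h => hz (Finset.mem_union_left _ h),
            fun m => ((hY y hy).2 m).trans Finset.subset_union_left⟩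
    obtain ⟨e, he⟩ : ∃ e : Module.End R (X →₀ R), ∀ m, e m = m.filter (· ∈ Y) :=
      ⟨{ toFun := fun m => m.filter (· ∈ Y)
         map_add' := fun _ _ => Finsupp.filter_add
         map_smul' := fun _ _ => Finsupp.filter_smul }, fun _ => rfl⟩
    have hee : IsIdempotentElem e := by
      refine LinearMap.ext fun m => ?_
      show e (e m) = e m
      rw [he, he, Finsupp.filter_eq_self_iff]
      intro x hx
      by_contra h
      exact hx (Finsupp.filter_apply_neg _ _ h)
    refine ⟨e, hee, ⟨Y, ?_, ?_⟩, ?_, ?_⟩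
    · intro y hy
      rw [he]
      exact Finsupp.filter_single_of_neg _ hy
    · intro m
      rw [he, Finsupp.support_filter]
      intro y hy
      exact (Finset.mem_filter.1 hy).2
    · intro x hx
      obtain ⟨h1, h2⟩ := hY x hx
      constructor
      · refine LinearMap.ext fun m => ?_
        show e (x m) = x m
        rw [he, Finsupp.filter_eq_self_iff]
        intro y hy
        exact h2 m (Finsupp.mem_support_iff.2 hy)
      · refine Finsupp.lhom_ext fun y b => ?_
        show x (e (Finsupp.single y b)) = x (Finsupp.single y b)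
        rw [he]
        by_cases hy : y ∈ Y
        · rw [Finsupp.filter_single_of_pos _ hy]
        · rw [Finsupp.filter_single_of_neg _ hy, map_zero]
          have h3 : Finsupp.single y b = b • Finsupp.single y (1 : R) := by simp
          rw [h3, map_smul, h1 y hy, smul_zero]
    · let e1 : Fin Y.card ≃ Y := Y.equivFin.symm
      refine C_free hC.base hGL hee Y.card
        (∑ k, (Finsupp.lsingle (e1 k).1) ∘ₗ (LinearMap.proj k : (Fin Y.card → R) →ₗ[R] R))
        (LinearMap.pi fun k => Finsupp.lapply (e1 k).1) ?_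
      refine LinearMap.ext fun m => ?_
      rw [he]
      ext x
      simp only [LinearMap.comp_apply, LinearMap.sum_apply, LinearMap.proj_apply,
        LinearMap.pi_apply, Finsupp.lapply_apply, Finsupp.lsingle_apply, Finsupp.finsetSum_apply]
      by_cases hx : x ∈ Y
      · rw [Finsupp.filter_apply_pos _ _ hx, Finset.sum_eq_single (e1.symm ⟨x, hx⟩)]
        · simp
        · intro k _ hk
          rw [Finsupp.single_apply, if_neg]
          intro h
          apply hk
          rw [Equiv.eq_symm_apply]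
          exact Subtype.ext h
        · intro h
          exact absurd (Finset.mem_univ _) h
      · rw [Finsupp.filter_apply_neg _ _ hx]
        refine Finset.sum_eq_zero fun k _ => ?_
        rw [Finsupp.single_apply, if_neg]
        intro h
        exact hx (h ▸ (e1 k).2)
  · -- invariance
    rintro g x ⟨Y, hY1, hY2⟩
    have hfin : {y | ∃ z ∈ Y, (φ g)⁻¹.1 (Finsupp.single y 1) z ≠ 0}.Finite := by
      have h1 : {y | ∃ z ∈ Y, (φ g)⁻¹.1 (Finsupp.single y 1) z ≠ 0} =
          ⋃ z ∈ Y, {y | (φ g⁻¹).1 (Finsupp.single y 1) z ≠ 0} := by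
        ext y
        simp [map_inv]
      rw [h1]
      exact Y.finite_toSet.biUnion fun z _ => hrow g⁻¹ z
    refine ⟨hfin.toFinset ∪ Y.biUnion fun z => ((φ g).1 (Finsupp.single z 1)).support, ?_, ?_⟩
    · intro y hy
      show (φ g).1 (x ((φ g)⁻¹.1 (Finsupp.single y 1))) = 0
      have h1 : ∀ z ∈ Y, (φ g)⁻¹.1 (Finsupp.single y 1) z = 0 := by
        intro z hz
        by_contra h
        exact hy (Finset.mem_union_left _ (hfin.mem_toFinset.2 ⟨z, hz, h⟩))
      have h2 : ∀ m : X →₀ R, (∀ z ∈ Y, m z = 0) → x m = 0 := by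
        intro m hm
        rw [← Finsupp.sum_single m, Finsupp.sum, map_sum]
        refine Finset.sum_eq_zero fun z hz => ?_
        have hzY : z ∉ Y := fun h => (Finsupp.mem_support_iff.1 hz) (hm z h)
        have h3 : Finsupp.single z (m z) = m z • Finsupp.single z (1 : R) := by simp
        rw [h3, map_smul, hY1 z hzY, smul_zero]
      rw [h2 _ h1, map_zero]
    · intro m
      show ((φ g).1 (x ((φ g)⁻¹.1 m))).support ⊆ _
      obtain ⟨m', hm'⟩ : ∃ m', m' = x ((φ g)⁻¹.1 m) := ⟨_, rfl⟩
      have h1 : m'.support ⊆ Y := hm' ▸ hY2 _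
      rw [← hm', ← Finsupp.sum_single m', Finsupp.sum, map_sum]
      refine (Finsupp.support_finsetSum).trans ?_
      intro z hz
      obtain ⟨y, hy, hz⟩ := Finset.mem_biUnion.1 hz
      have h3 : Finsupp.single y (m' y) = m' y • Finsupp.single y (1 : R) := by simp
      rw [h3, map_smul] at hz
      exact Finset.mem_union_right _ (Finset.mem_biUnion.2 ⟨y, h1 hy, Finsupp.support_smul hz⟩)

end fm

end Pool.Agent.U643.UI
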