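import Pool.Agent.U643.UI.Chain

/-!
# Von Neumann regular rings
-/

set_option autoImplicit false

namespace Pool.Agent.U643.UI

open Pool.Agent.Y110.FJ
open Pool.Agent.Y462.SS (Closed)
open Pool.Agent.R941.FJ (C_equiv C_le)

variable {C : ∀ (G : Type) [Group G], Prop}

section emb

variable {R S : Type} [Ring R] [Ring S]

/-- the homomorphism of the groups of units given by a non-unital ring homomorphism -/
def uE (θ : R →ₙ+* S) : Rˣ →* Sˣ :=
  MonoidHom.toHomUnits
    { toFun := fun u => θ u.1 + (1 - θ 1)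
      map_one' := by simp
      map_mul' := fun u v => by
        have h1 : ∀ x : R, θ x * θ 1 = θ x := fun x => by rw [← map_mul, mul_one]
        have h2 : ∀ x : R, θ 1 * θ x = θ x := fun x => by rw [← map_mul, one_mul]
        rw [Units.val_mul, map_mul]
        have h3 : (θ u.1 + (1 - θ 1)) * (θ v.1 + (1 - θ 1)) = θ u.1 * θ v.1 +
            (θ u.1 - θ u.1 * θ 1) + (θ v.1 - θ 1 * θ v.1) + (1 - θ 1 - (θ 1 - θ 1 * θ 1)) := by
          noncomm_ring
        rw [h3, h1, h2, h1]
        abel }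

theorem uE_val (θ : R →ₙ+* S) (u : Rˣ) : (uE θ u).val = θ u.1 + (1 - θ 1) := rfl

theorem uE_inj {θ : R →ₙ+* S} (hθ : Function.Injective θ) : Function.Injective (uE θ) := by
  intro u v huv
  have h1 : (uE θ u).val = (uE θ v).val := by rw [huv]
  rw [uE_val, uE_val] at h1
  exact Units.ext (hθ (add_right_cancel h1))

/-- matrices over a non-unital ring homomorphism -/
def m2 (θ : R →ₙ+* S) : Matrix (Fin 2) (Fin 2) R →ₙ+* Matrix (Fin 2) (Fin 2) S where
  toFun m := m.map θ
  map_mul' m m' := by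
    ext i j
    simp [Matrix.mul_apply]
  map_zero' := by
    ext i j
    simp
  map_add' m m' := by
    ext i j
    simp

theorem m2_inj {θ : R →ₙ+* S} (hθ : Function.Injective θ) : Function.Injective (m2 θ) := by
  intro m m' h
  ext i j
  exact hθ (congrFun (congrFun h i) j)

/-- if a ring embeds, not necessarily with its unit element, in a matrix ring over `S`, then its
group `GL₂` is in `C` if the groups `GL_n (S)` are -/
theorem C_gl2 (hC : Closed C) (n : ℕ) (θ : R →ₙ+* Matrix (Fin n) (Fin n) S)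
    (hθ : Function.Injective θ) (h : C (Matrix (Fin (2 * n)) (Fin (2 * n)) S)ˣ) :
    C (Matrix (Fin 2) (Fin 2) R)ˣ := by
  have e1 : Matrix (Fin 2) (Fin 2) (Matrix (Fin n) (Fin n) S) ≃+*
      Matrix (Fin (2 * n)) (Fin (2 * n)) S :=
    (Matrix.compRingEquiv (Fin 2) (Fin n) S).trans
      (Matrix.reindexRingEquiv S (finProdFinEquiv (m := 2) (n := n)))
  refine hC.of_injective _ _ ((Units.mapEquiv e1.toMulEquiv).toMonoidHom.comp (uE (m2 θ))) ?_ h
  exact (Units.mapEquiv e1.toMulEquiv).injective.comp (uE_inj (m2_inj hθ))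

end emb

section reg

variable {B : Type} [Ring B]

/-- left local units in a regular ring -/
theorem lu_left (hreg : ∀ a : B, ∃ b, a * b * a = a) (I : TwoSidedIdeal B) (F : Set B)
    (hF : F.Finite) (hFI : F ⊆ I) : ∃ e ∈ I, e * e = e ∧ ∀ x ∈ F, e * x = x := by
  induction F, hF using Set.Finite.induction_on with
  | empty => exact ⟨0, I.zero_mem, by simp, by simp⟩
  | @insert x F _ _ ih =>
    obtain ⟨e, heI, hee, hex⟩ := ih fun y hy => hFI (Set.mem_insert_of_mem _ hy)
    have hxI : x ∈ I := hFI (Set.mem_insert _ _)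
    obtain ⟨z, hz⟩ := hreg ((1 - e) * x)
    obtain ⟨y, hy⟩ : ∃ y, y = (1 - e) * x := ⟨_, rfl⟩
    rw [← hy] at hz
    have hey : e * y = 0 := by rw [hy, ← mul_assoc, mul_sub, mul_one, hee, sub_self, zero_mul]
    have hyI : y ∈ I := by rw [hy]; exact I.mul_mem_left _ _ hxI
    have hgg : y * z * (y * z) = y * z := by rw [← mul_assoc, hz]
    have heg : e * (y * z) = 0 := by rw [← mul_assoc, hey, zero_mul]
    have h1e : (1 - e) * e = 0 := by rw [sub_mul, one_mul, hee, sub_self]
    refine ⟨e + y * z * (1 - e), I.add_mem heI (I.mul_mem_right _ _ (I.mul_mem_right _ _ hyI)),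
      ?_, ?_⟩
    · have h1 : e * (y * z * (1 - e)) = 0 := by rw [← mul_assoc, heg, zero_mul]
      have h2 : y * z * (1 - e) * e = 0 := by rw [mul_assoc, h1e, mul_zero]
      have h3 : y * z * (1 - e) * (y * z * (1 - e)) = y * z * (1 - e) := by
        have h4 : (1 - e) * (y * z * (1 - e)) = y * z * (1 - e) := by
          rw [sub_mul, one_mul, h1, sub_zero]
        rw [mul_assoc (y * z), h4, ← mul_assoc, hgg]
      rw [mul_add, add_mul, add_mul, hee, h1, h2, h3]
      simp
    · rintro w (rfl | hw)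
      · rw [add_mul, mul_assoc (y * z), ← hy, hz, hy, sub_mul, one_mul]
        abel
      · have h5 : (1 - e) * w = 0 := by rw [sub_mul, one_mul, hex w hw, sub_self]
        rw [add_mul, mul_assoc (y * z), h5, mul_zero, add_zero, hex w hw]

/-- right local units in a regular ring -/
theorem lu_right (hreg : ∀ a : B, ∃ b, a * b * a = a) (I : TwoSidedIdeal B) (F : Set B)
    (hF : F.Finite) (hFI : F ⊆ I) : ∃ e ∈ I, e * e = e ∧ ∀ x ∈ F, x * e = x := by
  induction F, hF using Set.Finite.induction_on with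
  | empty => exact ⟨0, I.zero_mem, by simp, by simp⟩
  | @insert x F _ _ ih =>
    obtain ⟨e, heI, hee, hex⟩ := ih fun y hy => hFI (Set.mem_insert_of_mem _ hy)
    have hxI : x ∈ I := hFI (Set.mem_insert _ _)
    obtain ⟨z, hz⟩ := hreg (x * (1 - e))
    obtain ⟨y, hy⟩ : ∃ y, y = x * (1 - e) := ⟨_, rfl⟩
    rw [← hy] at hz
    have hey : y * e = 0 := by rw [hy, mul_assoc, sub_mul, one_mul, hee, sub_self, mul_zero]
    have hyI : y ∈ I := by rw [hy]; exact I.mul_mem_right _ _ hxI
    have hgg : z * y * (z * y) = z * y := by rw [mul_assoc z y, ← mul_assoc y z y, hz]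
    have heg : z * y * e = 0 := by rw [mul_assoc, hey, mul_zero]
    have h1e : e * (1 - e) = 0 := by rw [mul_sub, mul_one, hee, sub_self]
    refine ⟨e + (1 - e) * (z * y), I.add_mem heI (I.mul_mem_left _ _ (I.mul_mem_left _ _ hyI)),
      ?_, ?_⟩
    · have h1 : (1 - e) * (z * y) * e = 0 := by rw [mul_assoc, heg, mul_zero]
      have h2 : e * ((1 - e) * (z * y)) = 0 := by rw [← mul_assoc, h1e, zero_mul]
      have h3 : (1 - e) * (z * y) * ((1 - e) * (z * y)) = (1 - e) * (z * y) := by
        have h4 : (1 - e) * (z * y) * (1 - e) = (1 - e) * (z * y) := by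
          rw [mul_sub, mul_one, h1, sub_zero]
        rw [← mul_assoc, h4, mul_assoc, hgg]
      rw [mul_add, add_mul, add_mul, hee, h1, h2, h3]
      simp
    · rintro w (rfl | hw)
      · rw [mul_add, ← mul_assoc, ← hy, ← mul_assoc, hz, hy, mul_sub, mul_one]
        abel
      · have h5 : w * (1 - e) = 0 := by rw [mul_sub, mul_one, hex w hw, sub_self]
        rw [mul_add, ← mul_assoc, h5, zero_mul, add_zero, hex w hw]

/-- local units in a regular ring -/
theorem lu (hreg : ∀ a : B, ∃ b, a * b * a = a) (I : TwoSidedIdeal B) (F : Set B)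
    (hF : F.Finite) (hFI : F ⊆ I) :
    ∃ h ∈ I, IsIdempotentElem h ∧ ∀ x ∈ F, h * x = x ∧ x * h = x := by
  obtain ⟨e, heI, hee, hex⟩ := lu_left hreg I F hF hFI
  obtain ⟨f, hfI, hff, hfx⟩ := lu_right hreg I (insert e F) (hF.insert e)
    (Set.insert_subset heI hFI)
  have hef : e * f = e := hfx e (Set.mem_insert _ _)
  refine ⟨f + (1 - f) * e, I.add_mem hfI (I.mul_mem_left _ _ heI), ?_, fun x hx => ⟨?_, ?_⟩⟩
  · have h1 : e * ((1 - f) * e) = 0 := by
      rw [← mul_assoc, mul_sub, mul_one, hef, sub_self, zero_mul]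
    have h2 : f * ((1 - f) * e) = 0 := by
      rw [← mul_assoc, mul_sub, mul_one, hff, sub_self, zero_mul]
    show (f + (1 - f) * e) * (f + (1 - f) * e) = f + (1 - f) * e
    rw [mul_add, add_mul, add_mul, hff, h2, mul_assoc, hef, mul_assoc, h1]
    simp
  · rw [add_mul, mul_assoc, hex x hx, sub_mul, one_mul]
    abel
  · have h3 : x * f = x := hfx x (Set.mem_insert_of_mem _ hx)
    rw [mul_add, ← mul_assoc, mul_sub, mul_one, h3, sub_self, zero_mul, add_zero]

/-- the corner ring of an idempotent `h = ∑ a i * e * b i` embeds in the matrix ring over the corner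
ring of `e` -/
def th {e h : B} (he : IsIdempotentElem e) (hh : IsIdempotentElem h) (n : ℕ) (a b : Fin n → B)
    (hab : h = ∑ i, a i * e * b i) : hh.Corner →ₙ+* Matrix (Fin n) (Fin n) he.Corner where
  toFun x := Matrix.of fun i j => ce he (e * (b i * x.1 * a j) * e)
    (by rw [← mul_assoc, ← mul_assoc, he.eq]) (by rw [mul_assoc, he.eq])
  map_mul' x y := by
    ext i j
    rw [Matrix.mul_apply]
    apply Subtype.ext
    have h1 : ∀ (s : Finset (Fin n)) (f : Fin n → he.Corner),
        (∑ k ∈ s, f k).1 = ∑ k ∈ s, (f k).1 := by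
      intro s f
      induction s using Finset.cons_induction with
      | empty => rfl
      | cons a s ha ih =>
        rw [Finset.sum_cons, Finset.sum_cons, ← ih]
        rfl
    rw [h1]
    show e * (b i * (x.1 * y.1) * a j) * e =
      ∑ k, (e * (b i * x.1 * a k) * e) * (e * (b k * y.1 * a j) * e)
    have h2 : ∀ k, (e * (b i * x.1 * a k) * e) * (e * (b k * y.1 * a j) * e) =
        (e * (b i * x.1)) * (a k * e * b k) * (y.1 * a j * e) := by
      intro k
      calc (e * (b i * x.1 * a k) * e) * (e * (b k * y.1 * a j) * e)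
          = (e * (b i * x.1 * a k) * (e * e)) * (b k * y.1 * a j) * e := by
            simp only [mul_assoc]
        _ = _ := by rw [he.eq]; simp only [mul_assoc]
    rw [Finset.sum_congr rfl fun k _ => h2 k, ← Finset.sum_mul, ← Finset.mul_sum, ← hab]
    have h3 : x.1 * h = x.1 := ((Subsemigroup.mem_corner_iff hh).1 x.2).2
    calc e * (b i * (x.1 * y.1) * a j) * e = e * (b i * x.1) * (y.1 * a j * e) := by
          simp only [mul_assoc]
      _ = e * (b i * (x.1 * h)) * (y.1 * a j * e) := by rw [h3]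
      _ = _ := by simp only [mul_assoc]
  map_zero' := by
    ext i j
    apply Subtype.ext
    show e * (b i * 0 * a j) * e = 0
    simp
  map_add' x y := by
    ext i j
    apply Subtype.ext
    show e * (b i * (x.1 + y.1) * a j) * e = e * (b i * x.1 * a j) * e + e * (b i * y.1 * a j) * e
    noncomm_ring

theorem th_inj {e h : B} (he : IsIdempotentElem e) (hh : IsIdempotentElem h) (n : ℕ)
    (a b : Fin n → B) (hab : h = ∑ i, a i * e * b i) :
    Function.Injective (th he hh n a b hab) := by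
  intro x y hxy
  have h1 : ∀ i j, e * (b i * x.1 * a j) * e = e * (b i * y.1 * a j) * e := by
    intro i j
    exact congrArg Subtype.val (congrFun (congrFun hxy i) j)
  have h2 : ∀ z : hh.Corner, z.1 = ∑ i, ∑ j, a i * (e * (b i * z.1 * a j) * e) * b j := by
    intro z
    have h3 : h * z.1 = z.1 := ((Subsemigroup.mem_corner_iff hh).1 z.2).1
    have h4 : z.1 * h = z.1 := ((Subsemigroup.mem_corner_iff hh).1 z.2).2
    have h5 : z.1 = (∑ i, a i * e * b i) * z.1 * (∑ j, a j * e * b j) := by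
      rw [← hab, h3, h4]
    conv_lhs => rw [h5, Finset.sum_mul, Finset.sum_mul_sum]
    refine Finset.sum_congr rfl fun i _ => Finset.sum_congr rfl fun j _ => ?_
    simp only [mul_assoc]
  apply Subtype.ext
  rw [h2 x, h2 y]
  exact Finset.sum_congr rfl fun i _ => Finset.sum_congr rfl fun j _ => by rw [h1]

/-- the ideal generated by an idempotent consists of the sums `∑ a i * e * b i` -/
def gen (e : B) : TwoSidedIdeal B :=
  TwoSidedIdeal.mk' {x | ∃ (n : ℕ) (a b : Fin n → B), x = ∑ i, a i * e * b i}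
    ⟨0, Fin.elim0, Fin.elim0, by simp⟩
    (by
      rintro x y ⟨n, a, b, rfl⟩ ⟨m, c, d, rfl⟩
      refine ⟨n + m, Fin.append a c, Fin.append b d, ?_⟩
      rw [Fin.sum_univ_add]
      simp)
    (by
      rintro x ⟨n, a, b, rfl⟩
      refine ⟨n, fun i => -a i, b, ?_⟩
      simp)
    (by
      rintro x y ⟨n, a, b, rfl⟩
      refine ⟨n, fun i => x * a i, b, ?_⟩
      rw [Finset.mul_sum]
      simp only [mul_assoc])
    (by
      rintro x y ⟨n, a, b, rfl⟩
      refine ⟨n, a, fun i => b i * y, ?_⟩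
      rw [Finset.sum_mul]
      simp only [mul_assoc])

theorem mem_gen {e x : B} : x ∈ gen e ↔ ∃ (n : ℕ) (a b : Fin n → B), x = ∑ i, a i * e * b i := by
  rw [gen, TwoSidedIdeal.mem_mk']
  rfl

theorem self_mem_gen (e : B) : e ∈ gen e := mem_gen.2 ⟨1, 1, 1, by simp⟩

theorem gen_le {e : B} {I : TwoSidedIdeal B} (h : e ∈ I) : gen e ≤ I := by
  intro x hx
  obtain ⟨n, a, b, rfl⟩ := mem_gen.1 hx
  exact sum_mem fun i _ => I.mul_mem_right _ _ (I.mul_mem_left _ _ h)

theorem gen_lunits (hC : Closed C) (hreg : ∀ a : B, ∃ b, a * b * a = a) {e : B}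
    (he : IsIdempotentElem e) (hGL : ∀ n, C (Matrix (Fin n) (Fin n) he.Corner)ˣ) :
    LUnits C (gen e : Set B) := by
  intro F hF hFI
  obtain ⟨h, hI, hh, hx⟩ := lu hreg (gen e) F hF hFI
  refine ⟨h, hh, hI, hx, ?_⟩
  obtain ⟨n, a, b, hab⟩ := mem_gen.1 hI
  exact C_gl2 hC n (th he hh n a b hab) (th_inj he hh n a b hab) (hGL _)

end reg

/-- **kernels in the groups of units of regular rings** -/
theorem regular (hC : ClosedE C)
    (hmet : ∀ (S : Type) [Group S], (∀ a ∈ commutator S, ∀ b ∈ commutator S, a * b = b * a) → C S)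
    {A : Type} [Ring A] (hreg : ∀ a : A, ∃ b, a * b * a = a) (I : TwoSidedIdeal A)
    (hI : ∀ J, J < I → ∃ x ∈ I, x ∉ J ∧
      ∃ he : IsIdempotentElem (J.ringCon.mk' x), ∀ n, C (Matrix (Fin n) (Fin n) he.Corner)ˣ)
    {G : Type} [Group G] (φ : G →* Aˣ) (N : Subgroup G) [N.Normal] (hQ : C (G ⧸ N))
    (hinj : ∀ n ∈ N, φ n = 1 → n = 1) (hNI : ∀ n ∈ N, (φ n).1 - 1 ∈ I) : C G := by
  refine chain hC hmet I (fun J hJ => ?_) φ N hQ hinj hNI
  obtain ⟨x, hxI, hxJ, he, hGL⟩ := hI J hJ
  have hregQ : ∀ a : J.ringCon.Quotient, ∃ b, a * b * a = a := by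
    intro a
    obtain ⟨a, rfl⟩ := mk_surj J a
    obtain ⟨b, hb⟩ := hreg a
    exact ⟨J.ringCon.mk' b, by rw [← map_mul, ← map_mul, hb]⟩
  obtain ⟨J', hJ'⟩ : ∃ J' : TwoSidedIdeal A, J' = TwoSidedIdeal.mk'
      {y | J.ringCon.mk' y ∈ gen (J.ringCon.mk' x)}
      (by show J.ringCon.mk' 0 ∈ gen (J.ringCon.mk' x)
          rw [map_zero]; exact TwoSidedIdeal.zero_mem _)
      (by intro a b (ha : J.ringCon.mk' a ∈ gen (J.ringCon.mk' x))
            (hb : J.ringCon.mk' b ∈ gen (J.ringCon.mk' x))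
          show J.ringCon.mk' (a + b) ∈ gen (J.ringCon.mk' x)
          rw [map_add]; exact TwoSidedIdeal.add_mem _ ha hb)
      (by intro a (ha : J.ringCon.mk' a ∈ gen (J.ringCon.mk' x))
          show J.ringCon.mk' (-a) ∈ gen (J.ringCon.mk' x)
          rw [map_neg]; exact TwoSidedIdeal.neg_mem _ ha)
      (by intro a b (hb : J.ringCon.mk' b ∈ gen (J.ringCon.mk' x))
          show J.ringCon.mk' (a * b) ∈ gen (J.ringCon.mk' x)
          rw [map_mul]; exact TwoSidedIdeal.mul_mem_left _ _ _ hb)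
      (by intro a b (ha : J.ringCon.mk' a ∈ gen (J.ringCon.mk' x))
          show J.ringCon.mk' (a * b) ∈ gen (J.ringCon.mk' x)
          rw [map_mul]; exact TwoSidedIdeal.mul_mem_right _ _ _ ha) := ⟨_, rfl⟩
  have hmem : ∀ y, y ∈ J' ↔ J.ringCon.mk' y ∈ gen (J.ringCon.mk' x) := by
    intro y
    rw [hJ', TwoSidedIdeal.mem_mk']
    rfl
  have hJJ' : J ≤ J' := by
    intro y hy
    rw [hmem]
    have : J.ringCon.mk' y = J.ringCon.mk' 0 := mk_eq.2 (by rw [sub_zero]; exact hy)
    rw [this, map_zero]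
    exact TwoSidedIdeal.zero_mem _
  have hxJ' : x ∈ J' := (hmem x).2 (self_mem_gen _)
  refine ⟨J', lt_of_le_of_ne hJJ' fun h => hxJ (h ▸ hxJ'), ?_, Or.inl ?_⟩
  · intro y hy
    obtain ⟨n, a, b, hab⟩ := mem_gen.1 ((hmem y).1 hy)
    choose a' ha' using fun i => mk_surj J (a i)
    choose b' hb' using fun i => mk_surj J (b i)
    have h1 : J.ringCon.mk' y = J.ringCon.mk' (∑ i, a' i * x * b' i) := by
      rw [hab, map_sum]
      refine Finset.sum_congr rfl fun i _ => ?_
      rw [map_mul, map_mul, ha', hb']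
    have h2 : y = (y - ∑ i, a' i * x * b' i) + ∑ i, a' i * x * b' i := by abel
    rw [h2]
    exact I.add_mem (hJ.le (mk_eq.1 h1))
      (sum_mem fun i _ => I.mul_mem_right _ _ (I.mul_mem_left _ _ hxI))
  · have h1 : J.ringCon.mk' '' (J' : Set A) = (gen (J.ringCon.mk' x) : Set _) := by
      ext q
      constructor
      · rintro ⟨y, hy, rfl⟩
        exact (hmem y).1 hy
      · intro hq
        obtain ⟨y, rfl⟩ := mk_surj J q
        exact ⟨y, (hmem y).2 hq, rfl⟩
    rw [h1]
    exact gen_lunits hC.base hregQ he hGL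

end Pool.Agent.U643.UI
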